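import Mathlib
import Pool.Agent.N852.EL.Pol2

/-!
Project EL: the bad loci are closed.
-/

namespace Pool.Agent.N427.EL

open MvPolynomial
open Pool.Agent.N852.EL Pool.Agent.N852.MM

/-- EL/I. -/
theorem closP (hA : ElimP) : ClosP := by
  classical
  intro V _ _ n k F r A _
  have key : ∀ p : {p : Finset V × V // p.2 ∉ p.1},
      ∃ Ω : Set (MvPolynomial (Σ v, Fin (n v)) ℤ), (∀ w ∈ Ω, ∃ ε : V → ℕ, MH w ε) ∧
        ∀ x : Tup n ℂ, Bu F (cA A) p.1.2 p.1.1 x ↔ ∀ w ∈ Ω, ea (fun q => x q.1 q.2) w = 0 := by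
    rintro ⟨⟨S, u⟩, hu⟩
    obtain ⟨Ω, d, h1, h2⟩ := hA V V (Ci F u) (fun v => Fin (n v)) (fun _ => Fin r)
      (fP F A u S) (dc F u (wz S)) (fun l => fP_MH A S l)
    refine ⟨Ω, h1 (dc F u (wx S)) fun l β => fP_CH A S l β, fun x => ?_⟩
    have h3 := (h2 fun q => x q.1 q.2).1
    rw [← h3, ← zer_fC (A := A) (S := S) (x := x)]
    have h4 : (fun l => MvPolynomial.map (ea fun q => x q.1 q.2) (fP F A u S l)) =
        fC F A u S x := funext fun l => map_fP A S x l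
    rw [h4]
  choose Ω h1 h2 using key
  refine ⟨{w | ∃ g : {p : Finset V × V // p.2 ∉ p.1} → MvPolynomial (Σ v, Fin (n v)) ℤ,
    (∀ p, g p ∈ Ω p) ∧ w = ∏ p, g p}, ?_, fun x => ⟨?_, ?_⟩⟩
  · rintro w ⟨g, hg, rfl⟩
    choose ε hε using fun p => h1 p (g p) (hg p)
    exact ⟨_, MH_grl.prod Finset.univ fun p _ => hε p⟩
  · rintro ⟨S, -, u, hu, hb⟩ w ⟨g, hg, rfl⟩
    rw [map_prod]
    exact Finset.prod_eq_zero (Finset.mem_univ ⟨(S, u), hu⟩)
      ((h2 ⟨(S, u), hu⟩ x).1 hb _ (hg _))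
  · intro h
    by_contra hno
    have h3 : ∀ p : {p : Finset V × V // p.2 ∉ p.1},
        ∃ w ∈ Ω p, ea (fun q => x q.1 q.2) w ≠ 0 := by
      rintro ⟨⟨S, u⟩, hu⟩
      by_contra hp
      push Not at hp
      refine hno ⟨S, ?_, u, hu, (h2 ⟨(S, u), hu⟩ x).2 hp⟩
      rintro rfl
      exact hu (Finset.mem_univ u)
    choose g hg hg' using h3
    have h4 := h _ ⟨g, hg, rfl⟩
    rw [map_prod] at h4
    exact Finset.prod_ne_zero_iff.2 (fun p _ => hg' p) h4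

end Pool.Agent.N427.EL
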